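import Pool.Agent.R138.Ex7b

/-! # MP_7230e4_co: a minimal block with a modular copoint that is not tangential -/

namespace Pool.Agent.Results.MP_7230e4_co.MinimalNotTangential

open Pool.Agent.Helper236 Pool.Agent.R138

variable {α : Type}

/-- `X` is a modular copoint of `M`: a flat of rank `r(M) - 1` meeting every line of `M`. -/
def IsModularCopoint (M : Matroid α) (X : Set α) : Prop :=
  M.IsFlat X ∧ rk M X + 1 = rk M M.E ∧
    ∀ L, M.IsFlat L → rk M L = 2 → (L ∩ X).Nonempty

/-- `M` is a `k`-block over `F`: it is finite, simple, representable over `F`, and its critical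
exponent is larger than `k`. -/
def IsBlock (F : Type) [Field F] (k : ℕ) (M : Matroid α) : Prop :=
  M.Finite ∧ IsSimple M ∧ Representable F M ∧ (k : ℕ∞) < critExp M (Nat.card F)

/-- `M` is a minimal `k`-block over `F`: a `k`-block all of whose one-point deletions have
critical exponent at most `k`. -/
def IsMinimalBlock (F : Type) [Field F] (k : ℕ) (M : Matroid α) : Prop :=
  IsBlock F k M ∧ ∀ x ∈ M.E, critExp (M.delete {x}) (Nat.card F) ≤ k

/-- `Y` has a tangent of codimension `k` in the representation `v` of `M` in `F ^ n`: a subspace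
of rank `n - k` whose intersection with `M` is `Y`. -/
def HasTangent (F : Type) [Field F] (k : ℕ) (M : Matroid α) {n : ℕ} (v : α → (Fin n → F))
    (Y : Set α) : Prop :=
  ∃ U : Submodule F (Fin n → F), Module.finrank F U = n - k ∧ ∀ e ∈ M.E, v e ∈ U ↔ e ∈ Y

/-- `M` is a tangential `k`-block over `F`: a `k`-block such that, for some representation in
`F ^ n` with `n = r(M)`, every nonempty flat of rank at most `n - k` has a tangent of
codimension `k`. -/
def IsTangentialBlock (F : Type) [Field F] (k : ℕ) (M : Matroid α) : Prop :=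
  IsBlock F k M ∧ ∃ (n : ℕ) (v : α → (Fin n → F)), n = rk M M.E ∧
    (∀ I ⊆ M.E, M.Indep I ↔ LinearIndepOn F v I) ∧
    ∀ Y, M.IsFlat Y → Y.Nonempty → rk M Y ≤ n - k → HasTangent F k M v Y

theorem nine_eleven : rk Ex7b.Mat (Ex7b.Mat.closure {9, 11}) = 2 :=
  ModBlock.rk_pair Ex7b.Mat_rep Ex7b.Mat_simple (Set.mem_univ _) (Set.mem_univ _) (by decide)

/-- a coordinate -/
def p3 : (Fin 5 → ZMod 7) →ₗ[ZMod 7] ZMod 7 := LinearMap.proj 3

/-- a coordinate -/
def p4 : (Fin 5 → ZMod 7) →ₗ[ZMod 7] ZMod 7 := LinearMap.proj 4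

theorem span_fact : ∀ x : Fin 26, Ex7b.pt x 0 = 0 → Ex7b.pt x 1 = 0 →
    Ex7b.pt x 3 = Ex7b.pt x 4 → x = 9 ∨ x = 11 := by
  decide +kernel

theorem mem_line {x : Fin 26} (hx : x ∈ Ex7b.Mat.closure {9, 11}) : x = 9 ∨ x = 11 := by
  rw [Ex7b.Mat_rep.mem_closure_iff (Set.subset_univ _) (Set.mem_univ _), Set.image_pair] at hx
  have h : ∀ g : (Fin 5 → ZMod 7) →ₗ[ZMod 7] ZMod 7, g (Ex7b.pt 9) = 0 → g (Ex7b.pt 11) = 0 →
      g (Ex7b.pt x) = 0 := by
    intro g h9 h11
    have h15 : Submodule.span (ZMod 7) {Ex7b.pt 9, Ex7b.pt 11} ≤ LinearMap.ker g := by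
      rw [Submodule.span_le]
      rintro y (rfl | rfl)
      · exact h9
      · exact h11
    exact h15 hx
  have e9 : Ex7b.pt 9 = ![0, 0, 0, 1, 1] := by decide +kernel
  have e11 : Ex7b.pt 11 = ![0, 0, 1, 0, 0] := by decide +kernel
  apply span_fact
  · exact h (LinearMap.proj 0) (by rw [e9]; rfl) (by rw [e11]; rfl)
  · exact h (LinearMap.proj 1) (by rw [e9]; rfl) (by rw [e11]; rfl)
  · have hg9 : (p3 - p4) (Ex7b.pt 9) = 0 := by
      rw [LinearMap.sub_apply, p3, p4, LinearMap.proj_apply, LinearMap.proj_apply, e9]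
      decide
    have hg11 : (p3 - p4) (Ex7b.pt 11) = 0 := by
      rw [LinearMap.sub_apply, p3, p4, LinearMap.proj_apply, LinearMap.proj_apply, e11]
      decide
    have := h _ hg9 hg11
    rw [LinearMap.sub_apply, sub_eq_zero] at this
    exact this

/-- the contraction of the line through the points `9` and `11` is a block -/
theorem contract_gt :
    ((1 : ℕ) : ℕ∞) < critExp (Ex7b.Mat.contract (Ex7b.Mat.closure {9, 11}))
      (Nat.card (ZMod 7)) := by
  by_contra hcon
  rw [not_lt] at hcon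
  have h := minor_critExp_le_iff Ex7b.Mat_rep 1 (Ex7b.Mat.closure {9, 11}) ∅
    (Ex7b.Mat.closure_subset_ground _)
  rw [Matroid.delete_empty] at h
  obtain ⟨f, hf1, hf2⟩ := h.1 hcon
  have h9 : (9 : Fin 26) ∈ Ex7b.Mat.closure {9, 11} :=
    Ex7b.Mat.mem_closure_of_mem' (by simp) (Set.mem_univ _)
  have h11 : (11 : Fin 26) ∈ Ex7b.Mat.closure {9, 11} :=
    Ex7b.Mat.mem_closure_of_mem' (by simp) (Set.mem_univ _)
  obtain ⟨x, hx9, hx11, hx⟩ := Ex7b.no_tangent ((LinearMap.proj 0).comp f)
    (by rw [LinearMap.comp_apply, hf1 _ h9]; rfl) (by rw [LinearMap.comp_apply, hf1 _ h11]; rfl)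
  refine hf2 x ⟨Set.mem_univ _, fun hmem => ?_⟩ ?_
  · rcases mem_line hmem with h | h
    · exact hx9 h
    · exact hx11 h
  · ext j
    rw [Subsingleton.elim j 0]
    exact hx

/-- There is a geometry of rank five on twenty-six points, representable over `GF(7)`, that has a
modular copoint and is a minimal `1`-block over `GF(7)` but not a tangential `1`-block: the
contraction of some nonempty flat of rank two has critical exponent larger than one. -/
theorem result : ∃ M : Matroid (Fin 26), rk M M.E = 5 ∧ (∃ X, IsModularCopoint M X) ∧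
    IsMinimalBlock (ZMod 7) 1 M ∧ ¬ IsTangentialBlock (ZMod 7) 1 M ∧
    ∃ Y, M.IsFlat Y ∧ rk M Y = 2 ∧
      ((1 : ℕ) : ℕ∞) < critExp (M.contract Y) (Nat.card (ZMod 7)) := by
  refine ⟨Ex7b.Mat, Ex7b.Mat_rank_eq, ?_, ⟨⟨Ex7b.Mat_finite, Ex7b.Mat_simple,
    ⟨5, Ex7b.pt, Ex7b.Mat_rep⟩, Ex7b.Mat_critExp_gt⟩, fun x _ => Ex7b.Mat_delete x⟩, ?_,
    ⟨_, Ex7b.Mat.isFlat_closure _, nine_eleven, contract_gt⟩⟩
  · have h := Ex7b.Mat_copoint
    refine ⟨_, h.1.1, h.2, ?_⟩
    intro L hL hr
    have h1 := h.1.2 L hL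
    have h2 := ModBlock.rk_mono Ex7b.Mat_rep Set.Subset.rfl
      (Set.union_subset h.1.1.subset_ground hL.subset_ground)
    by_contra hcon
    rw [Set.not_nonempty_iff_eq_empty, Set.inter_comm] at hcon
    rw [hcon, ModBlock.rk_empty] at h1
    have h3 := h.2
    omega
  · rintro ⟨-, n, v, hn, hrep, hT⟩
    rw [Ex7b.Mat_rank_eq] at hn
    subst hn
    have hrep' : Rep (ZMod 7) Ex7b.Mat v := hrep
    obtain ⟨U, hU, hUY⟩ := hT _ (Ex7b.Mat.isFlat_closure {9, 11})
      ⟨9, Ex7b.Mat.mem_closure_of_mem' (by simp) (Set.mem_univ _)⟩ (by rw [nine_eleven]; omega)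
    have hlt : U < ⊤ := by
      rw [lt_top_iff_ne_top]
      rintro rfl
      rw [finrank_top, Module.finrank_fin_fun] at hU
      omega
    obtain ⟨f, hf0, hf⟩ := Submodule.exists_le_ker_of_lt_top U hlt
    have hk : U = LinearMap.ker f := by
      apply Submodule.eq_of_le_of_finrank_le hf
      have h1 := LinearMap.finrank_range_add_finrank_ker f
      rw [Module.finrank_fin_fun] at h1
      have h2 : Module.finrank (ZMod 7) (LinearMap.range f) = 1 := by
        rw [LinearMap.range_eq_top.2 (LinearMap.surjective hf0), finrank_top, Module.finrank_self]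
      omega
    have h := minor_critExp_le_iff hrep' 1 (Ex7b.Mat.closure {9, 11}) ∅
      (Ex7b.Mat.closure_subset_ground _)
    rw [Matroid.delete_empty] at h
    refine absurd (h.2 ⟨LinearMap.pi (fun _ => f), ?_, ?_⟩) (not_le.2 contract_gt)
    · intro c hc
      have := (hUY c (Set.mem_univ _)).2 hc
      rw [hk, LinearMap.mem_ker] at this
      ext i
      simpa using this
    · intro e he h0
      have h3 := congrFun h0 0
      rw [LinearMap.pi_apply, Pi.zero_apply, ← LinearMap.mem_ker, ← hk] at h3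
      exact he.2 ((hUY e (Set.mem_univ _)).1 h3)

end Pool.Agent.Results.MP_7230e4_co.MinimalNotTangential
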